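import Pool.Agent.U987.BE.D

/-!
# Smooth approximation of homeomorphisms of `ℝⁿ` of small distortion at one scale

Let `f` be a homeomorphism of `ℝⁿ` such that on every ball of radius `δ` it changes distances by
factors between `a` and `ρ a`, where `a > 0` depends on the ball, and `ρ² (√n - 1) < √n + 1` (for
`n = 4` this is `ρ < √3`). Then `f` is a limit, uniformly on compact sets, of `C^∞` diffeomorphisms
`g j` of `ℝⁿ`; moreover `f⁻¹ ∘ g j` converges to the identity uniformly on the whole of `ℝⁿ`.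

Proof. The `g j` are mollifications with radial kernels. By the four point inequality for reflected
pairs of points they are local diffeomorphisms. As `f⁻¹ ∘ g j` is at a bounded distance of the
identity, `g j` is proper, hence a covering map, hence a diffeomorphism.
-/

set_option autoImplicit false

open Set Filter Topology Metric
open scoped ContDiff

namespace Pool.Agent.Results.MP_4f753b_an.SmallDistortionAtOneScale

/-- `ℝⁿ` -/
abbrev R (n : ℕ) : Type := EuclideanSpace ℝ (Fin n)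

/-- `g` is a diffeomorphism of `ℝⁿ` -/
def IsDiffeo {n : ℕ} (g : R n → R n) : Prop :=
  ContDiff ℝ ∞ g ∧ ∃ h : R n → R n, ContDiff ℝ ∞ h ∧ (∀ x, h (g x) = x) ∧ ∀ x, g (h x) = x

/-- on every ball of radius `δ`, `f` changes distances by factors between `a` and `ρ a`, for some
`a > 0` which depends on the ball -/
def HasDistortionAt {n : ℕ} (f : R n → R n) (δ ρ : ℝ) : Prop :=
  ∀ x, ∃ a > 0, ∀ p ∈ ball x δ, ∀ q ∈ ball x δ,
    a * ‖p - q‖ ≤ ‖f p - f q‖ ∧ ‖f p - f q‖ ≤ ρ * (a * ‖p - q‖)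

/-- **Smooth approximation.** -/
theorem result (n : ℕ) (hn : 1 ≤ n) (ρ δ : ℝ) (hρ : 1 ≤ ρ) (hδ : 0 < δ)
    (hc : ρ ^ 2 * (Real.sqrt n - 1) < Real.sqrt n + 1) (f : R n ≃ₜ R n)
    (hf : HasDistortionAt f δ ρ) :
    ∃ g : ℕ → R n → R n, (∀ j, IsDiffeo (g j)) ∧
      (∀ (j : ℕ) x, ‖f.symm (g j x) - x‖ < 1 / (j + 1)) ∧
      ∀ B : ℝ, ∃ C, ∀ (j : ℕ) x, ‖x‖ ≤ B → ‖g j x - f x‖ ≤ C / (j + 1) := by
  obtain ⟨g, hg, h1, h2⟩ :=
    Pool.Agent.U987.BE.approx_hom (n := n) hn hρ (by linarith) f hδ hf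
  refine ⟨g, fun j => ?_, h1, h2⟩
  obtain ⟨h3, h, h4, h5, h6⟩ := Pool.Agent.Y522.smooth_inverse (hg j).2.1 (hg j).2.2
  exact ⟨h3, h, h4, h5, h6⟩

end Pool.Agent.Results.MP_4f753b_an.SmallDistortionAtOneScale
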